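import Pool.Agent.R304.UG.Stab
import Pool.Agent.R304.SG.Bal
import Pool.Agent.R304.UQ.Ord
import Pool.Agent.R304.UQ.Bump

/-! Zeros in short intervals, and the sign of the derivative of Hardy's function. -/

open Complex Filter Topology Set MeasureTheory

namespace Pool.Agent.R304.UE

open ZU H370 H370.A2 H370.AS H295SI TH803TW TH803UC R304.UN R304.UG
open Pool.Agent.Results.MP_6bc78b_nt

/-- `1` if the condition holds, otherwise `0` -/
noncomputable def ind (P : Prop) : ℝ := by
  classical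
  exact if P then 1 else 0

lemma ind_nonneg (P : Prop) : 0 ≤ ind P := by unfold ind; split_ifs <;> norm_num
lemma ind_le_one (P : Prop) : ind P ≤ 1 := by unfold ind; split_ifs <;> norm_num
lemma ind_true {P : Prop} (h : P) : ind P = 1 := by unfold ind; rw [if_pos h]
lemma ind_false {P : Prop} (h : ¬ P) : ind P = 0 := by unfold ind; rw [if_neg h]

/-- the derivative of Hardy's function is positive, or negative -/
def sgn (b : Bool) (t : ℝ) : Prop := if b then 0 < (deriv SG.Z t).re else (deriv SG.Z t).re < 0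

lemma zset_half {A B : ℝ} (hA : 1 ≤ A) {s : ℂ} (hs : s ∈ Zf riemannZeta A B) (h : s.re = 1 / 2) :
    A < s.im ∧ s.im ≤ B ∧ SG.Z s.im = 0 ∧ s = 1 / 2 + I * s.im := by
  rw [mem_Zf good_zeta hA] at hs
  obtain ⟨-, -, h3, h4, h5⟩ := hs
  have e : (1 / 2 + I * s.im : ℂ) = s := by
    apply Complex.ext
    · simp [h]
    · simp
  refine ⟨h3, h4, ?_, e.symm⟩
  rw [SG.Z_zero_iff, e]
  exact h5

/-- the zeros in an interval: twice the distinct ones minus the number with multiplicity -/
lemma cell_count {A B : ℝ} (hA : 1 ≤ A) (hAB : A < B) (b : Bool) :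
    ∑ s ∈ Zf riemannZeta A B, ((1 + ind (s.re = 1 / 2)) - (mult riemannZeta s : ℝ)) ≤
      2 * ∑ s ∈ Zf riemannZeta A B, ind (s.re = 1 / 2 ∧ sgn b s.im) + 1 := by
  classical
  have hA0 : 0 ≤ A := by linarith
  obtain ⟨b1, b2⟩ := SG.balance hA0 hAB
  -- the excess
  have hfz := SimplePlusExcess.zeros_finite A B hA0
  have hzf : hfz.toFinset = Zf riemannZeta A B := by
    ext s
    rw [Set.Finite.mem_toFinset, mem_Zf good_zeta hA, SimplePlusExcess.zeros_eq]
  have e3 : SimplePlusExcess.excess A B = ∑ s ∈ Zf riemannZeta A B,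
      (if s.re = 1 / 2 then SimplePlusExcess.mult s - 2 else SimplePlusExcess.mult s - 1) := by
    rw [← hzf]
    exact finsum_mem_eq_finite_toFinset_sum _ hfz
  have hm : ∀ s, SimplePlusExcess.mult s = mult riemannZeta s := fun _ => rfl
  -- the simple zeros
  have hinj : ∀ F : Finset ℂ, (∀ s ∈ F, s.re = 1 / 2) → Set.InjOn (fun s : ℂ => s.im)
      (F : Set ℂ) := by
    intro F hF s hs s' hs' h
    exact Complex.ext ((hF s hs).trans (hF s' hs').symm) h
  have hS : (((Zf riemannZeta A B).filter (fun s => s.re = 1 / 2 ∧ mult riemannZeta s = 1)).card : ℝ)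
      ≤ (SimplePlusExcess.simpleZeros A B).ncard := by
    rw [← Set.ncard_coe_finset, ← Set.InjOn.ncard_image (hinj _ fun s hs => by
      rw [Finset.mem_filter] at hs; exact hs.2.1)]
    have hfin : (SimplePlusExcess.simpleZeros A B).Finite :=
      (SG.RZ_finite A B hA0).subset fun t ht => ⟨ht.1, ht.2.1, ht.2.2.1⟩
    have hle := Set.ncard_le_ncard (s := (fun s : ℂ => s.im) ''
      (((Zf riemannZeta A B).filter (fun s => s.re = 1 / 2 ∧ mult riemannZeta s = 1) : Finset ℂ) :
        Set ℂ)) (t := SimplePlusExcess.simpleZeros A B) ?_ hfin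
    · exact_mod_cast hle
    · rintro t ⟨s, hs, rfl⟩
      rw [Finset.mem_coe, Finset.mem_filter] at hs
      obtain ⟨g1, g2, g3, g4⟩ := zset_half hA hs.1 hs.2.1
      have h5 : riemannZeta (1 / 2 + I * s.im) = 0 := (SG.Z_zero_iff _).1 g3
      have hs1 : s ≠ 1 := by
        intro hh
        have := hs.2.1
        rw [hh] at this
        norm_num at this
      have h6 : deriv riemannZeta (1 / 2 + I * s.im) ≠ 0 := by
        rw [← g4]
        exact deriv_of_order hs1 (by rw [g4]; exact h5) hs.2.2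
      refine ⟨g1, g2, g3, ?_⟩
      show deriv SimpleZerosOfZ.Z s.im ≠ 0
      rw [(SimpleZerosOfZ.Z_hasDerivAt s.im h5).deriv]
      exact mul_ne_zero (SimpleZerosOfZ.phase_ne s.im) (mul_ne_zero h6 I_ne_zero)
  -- the zeros with a sign
  have hI : ({t : ℝ | A < t ∧ t ≤ B ∧ SG.Z t = 0 ∧ sgn b t}.ncard : ℝ) ≤
      ∑ s ∈ Zf riemannZeta A B, ind (s.re = 1 / 2 ∧ sgn b s.im) := by
    have e1 : ∑ s ∈ Zf riemannZeta A B, ind (s.re = 1 / 2 ∧ sgn b s.im) =
        (((Zf riemannZeta A B).filter (fun s => s.re = 1 / 2 ∧ sgn b s.im)).card : ℝ) := by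
      unfold ind
      rw [Finset.card_filter]
      push_cast
      refine Finset.sum_congr rfl fun s _ => ?_
      congr
    rw [e1, ← Set.ncard_coe_finset, ← Set.InjOn.ncard_image (hinj _ fun s hs => by
      rw [Finset.mem_filter] at hs; exact hs.2.1)]
    have hle := Set.ncard_le_ncard (s := {t : ℝ | A < t ∧ t ≤ B ∧ SG.Z t = 0 ∧ sgn b t})
      (t := (fun s : ℂ => s.im) '' (((Zf riemannZeta A B).filter
        (fun s => s.re = 1 / 2 ∧ sgn b s.im) : Finset ℂ) : Set ℂ)) ?_
      ((Finset.finite_toSet _).image _)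
    · exact_mod_cast hle
    · rintro t ⟨h1, h2, h3, h4⟩
      refine ⟨1 / 2 + I * t, ?_, by simp⟩
      rw [Finset.mem_coe, Finset.mem_filter, mem_Zf good_zeta hA]
      refine ⟨⟨by simp, by simp; norm_num, by simpa using h1, by simpa using h2,
        (SG.Z_zero_iff t).1 h3⟩, by simp, by simpa using h4⟩
  have hbal : ((SimplePlusExcess.simpleZeros A B).ncard : ℝ) ≤
      2 * ({t : ℝ | A < t ∧ t ≤ B ∧ SG.Z t = 0 ∧ sgn b t}.ncard : ℝ) + 1 +
        (SimplePlusExcess.excess A B : ℝ) := by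
    cases b
    · exact_mod_cast b2
    · exact_mod_cast b1
  have key : ∑ s ∈ Zf riemannZeta A B, ((1 + ind (s.re = 1 / 2)) - (mult riemannZeta s : ℝ)) ≤
      (((Zf riemannZeta A B).filter (fun s => s.re = 1 / 2 ∧ mult riemannZeta s = 1)).card : ℝ) -
        (SimplePlusExcess.excess A B : ℝ) := by
    rw [e3, Finset.card_filter]
    push_cast
    rw [← Finset.sum_sub_distrib]
    refine Finset.sum_le_sum fun s hs => ?_
    rw [hm]
    have h1 : 1 ≤ mult riemannZeta s := mult_pos' hA hs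
    by_cases h : s.re = 1 / 2
    · rw [ind_true h, if_pos h]
      by_cases h2 : mult riemannZeta s = 1
      · rw [if_pos ⟨h, h2⟩, h2]
        norm_num
      · rw [if_neg (fun hh => h2 hh.2)]
        have h3 : 2 ≤ mult riemannZeta s := by omega
        rw [Nat.cast_sub h3]
        push_cast
        linarith
    · rw [ind_false h, if_neg h, if_neg (fun hh => h hh.1), Nat.cast_sub h1]
      push_cast
      linarith
  linarith

/-- the weight of a zero -/
noncomputable def FF (P Q U : ℝ → Prop) (b : Bool) (s : ℂ) : ℝ :=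
  (1 + ind (s.re = 1 / 2)) * ind (P s.im) - 2 * (mult riemannZeta s : ℝ) * ind (U s.im) -
    (mult riemannZeta s : ℝ) * ind (Q s.im) - 2 * ind (s.re = 1 / 2 ∧ sgn b s.im ∧ Q s.im)

lemma cell {P Q U : ℝ → Prop} {h : ℝ}
    (hU : ∀ t t' : ℝ, |t' - t| ≤ h → P t → ¬ Q t' → U t) {A B : ℝ} (hA : 1 ≤ A)
    (hAB : A < B) (hB : B ≤ A + h) (b : Bool) : ∑ s ∈ Zf riemannZeta A B, FF P Q U b s ≤ 1 := by
  classical
  by_cases hg : ∀ t, A < t → t ≤ B → Q t
  · have h1 := cell_count hA hAB b
    have h2 : ∑ s ∈ Zf riemannZeta A B, FF P Q U b s ≤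
        ∑ s ∈ Zf riemannZeta A B, ((1 + ind (s.re = 1 / 2)) - (mult riemannZeta s : ℝ)) -
        2 * ∑ s ∈ Zf riemannZeta A B, ind (s.re = 1 / 2 ∧ sgn b s.im) := by
      rw [Finset.mul_sum, ← Finset.sum_sub_distrib]
      refine Finset.sum_le_sum fun s hs => ?_
      have hs' := hs
      rw [mem_Zf good_zeta hA] at hs'
      have hQ := hg s.im hs'.2.2.1 hs'.2.2.2.1
      unfold FF
      rw [ind_true hQ]
      have e : ind (s.re = 1 / 2 ∧ sgn b s.im ∧ Q s.im) = ind (s.re = 1 / 2 ∧ sgn b s.im) := by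
        congr 1
        simp [hQ]
      rw [e]
      have h3 := ind_nonneg (s.re = 1 / 2)
      have h4 := ind_le_one (P s.im)
      have h5 : (1 + ind (s.re = 1 / 2)) * ind (P s.im) ≤ (1 + ind (s.re = 1 / 2)) * 1 :=
        mul_le_mul_of_nonneg_left h4 (by linarith)
      have h6 : 0 ≤ 2 * (mult riemannZeta s : ℝ) * ind (U s.im) :=
        mul_nonneg (by positivity) (ind_nonneg _)
      linarith
    linarith
  · push Not at hg
    obtain ⟨t', h1, h2, h3⟩ := hg
    refine le_trans (Finset.sum_nonpos fun s hs => ?_) zero_le_one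
    have hs' := hs
    rw [mem_Zf good_zeta hA] at hs'
    have hm : (1 : ℝ) ≤ mult riemannZeta s := by exact_mod_cast mult_pos' hA hs
    unfold FF
    have g1 := ind_nonneg (Q s.im)
    have g2 := ind_nonneg (s.re = 1 / 2 ∧ sgn b s.im ∧ Q s.im)
    have g3 := ind_le_one (s.re = 1 / 2)
    have g4 : 0 ≤ (mult riemannZeta s : ℝ) * ind (Q s.im) := mul_nonneg (by linarith) g1
    by_cases hP : P s.im
    · have hUs : U s.im := by
        refine hU s.im t' ?_ hP h3
        rw [abs_le]
        constructor <;> linarith [hs'.2.2.1, hs'.2.2.2.1]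
      rw [ind_true hP, ind_true hUs]
      linarith
    · rw [ind_false hP, mul_zero]
      have g5 : 0 ≤ 2 * (mult riemannZeta s : ℝ) * ind (U s.im) :=
        mul_nonneg (by positivity) (ind_nonneg _)
      linarith

/-- tiling -/
lemma tile {P Q U : ℝ → Prop} {h h' : ℝ}
    (hU : ∀ t t' : ℝ, |t' - t| ≤ h → P t → ¬ Q t' → U t) (h0 : 0 < h') (hh : h' ≤ h)
    {T : ℝ} (hT : 1 ≤ T) (b : Bool) (n : ℕ) :
    ∑ s ∈ Zf riemannZeta T (T + n * h'), FF P Q U b s ≤ n := by
  induction n with
  | zero =>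
    have e : Zf riemannZeta T (T + ((0 : ℕ) : ℝ) * h') = ∅ := by
      ext s
      rw [mem_Zf good_zeta hT]
      constructor
      · rintro ⟨-, -, h3, h4, -⟩
        push_cast at h4
        linarith
      · intro hs
        exact absurd hs (Finset.notMem_empty s)
    rw [e]
    simp
  | succ k ih =>
    have hk : (0 : ℝ) ≤ k * h' := by positivity
    have e := Zf_sum_add good_zeta (A := T) (B := T + k * h') (C := T + (k + 1 : ℕ) * h') hT
      (by linarith) (by push_cast; linarith) (FF P Q U b)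
    rw [e]
    have h1 := cell (P := P) (Q := Q) (U := U) hU (A := T + k * h') (B := T + (k + 1 : ℕ) * h')
      (by linarith) (by push_cast; linarith) (by push_cast; linarith) b
    push_cast at h1 ⊢
    linarith

/-- the inequality in a dyadic interval -/
theorem dyadic {P Q U : ℝ → Prop} {h : ℝ} (hh : 0 < h)
    (hU : ∀ t t' : ℝ, |t' - t| ≤ h → P t → ¬ Q t' → U t) {T : ℝ} (hT : 1 ≤ T) (b : Bool) :
    ∑ s ∈ Zf riemannZeta T (2 * T), FF P Q U b s ≤ T / h + 1 := by
  have hT0 : 0 < T := by linarith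
  have hn := Nat.ceil_lt_add_one (show 0 ≤ T / h by positivity)
  have hn2 := Nat.le_ceil (T / h)
  have hn0 : (0 : ℝ) < ⌈T / h⌉₊ := lt_of_lt_of_le (by positivity) hn2
  have h1 := tile (h' := T / ⌈T / h⌉₊) hU (by positivity) (by
    rw [div_le_iff₀ hn0]
    rw [div_le_iff₀ hh] at hn2
    linarith) hT b ⌈T / h⌉₊
  have e : T + ⌈T / h⌉₊ * (T / ⌈T / h⌉₊) = 2 * T := by
    field_simp
    ring
  rw [e] at h1
  linarith

end Pool.Agent.R304.UE
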