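import Pool.Agent.R304.UE.Mass

/-! The sign of the derivative of Hardy's function at the zeros in sets of universality. -/

open Complex Filter Topology Set MeasureTheory
open scoped ComplexConjugate

namespace Pool.Agent.R304.UE

open ZU H370 H370.A2 H370.AS H295SI TH803TW TH803UC R304.UN R304.UG R304.UP R304.UQ

/-- the upper density -/
noncomputable def ud (E : Set ℝ) : ENNReal :=
  limsup (fun X : ℝ => volume (E ∩ Icc 0 X) / ENNReal.ofReal X) atTop

lemma ud_le (E : Set ℝ) : ud E ≤ 1 := by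
  refine limsup_le_of_le (by isBoundedDefault) ?_
  filter_upwards [eventually_gt_atTop 0] with X hX
  refine ENNReal.div_le_of_le_mul ?_
  rw [one_mul]
  refine (measure_mono inter_subset_right).trans ?_
  rw [Real.volume_Icc, sub_zero]

lemma ud_top (E : Set ℝ) : ud E ≠ ⊤ := ne_top_of_le_ne_top ENNReal.one_ne_top (ud_le E)

lemma ud_le' (E : Set ℝ) : (ud E).toReal ≤ 1 := by
  have := ENNReal.toReal_mono ENNReal.one_ne_top (ud_le E)
  simpa using this

lemma ud_mono {E F : Set ℝ} (h : E ⊆ F) : (ud E).toReal ≤ (ud F).toReal := by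
  refine ENNReal.toReal_mono (ud_top F) ?_
  refine limsup_le_limsup (Eventually.of_forall fun X => ?_) (by isBoundedDefault)
    (by isBoundedDefault)
  exact ENNReal.div_le_div_right (measure_mono (inter_subset_inter_left _ h)) _

lemma ud_freq (E : Set ℝ) {D : ℝ} (hD : D < (ud E).toReal) :
    ∃ᶠ X : ℝ in atTop, ENNReal.ofReal (D * X) ≤ volume (E ∩ Icc 0 X) := by
  rcases le_or_gt D 0 with hD0 | hD0
  · refine Eventually.frequently ?_
    filter_upwards [eventually_gt_atTop 0] with X hX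
    rw [ENNReal.ofReal_of_nonpos (mul_nonpos_of_nonpos_of_nonneg hD0 hX.le)]
    exact zero_le
  · have h1 : ENNReal.ofReal D < ud E :=
      (ENNReal.ofReal_lt_iff_lt_toReal hD0.le (ud_top E)).2 hD
    have h2 := frequently_lt_of_lt_limsup (by isBoundedDefault) h1
    refine (h2.and_eventually (eventually_gt_atTop 0)).mono ?_
    rintro X ⟨h3, hX⟩
    rw [ENNReal.ofReal_mul hD0.le]
    exact (ENNReal.le_div_iff_mul_le (Or.inl (ENNReal.ofReal_pos.2 hX).ne')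
      (Or.inl ENNReal.ofReal_ne_top)).1 h3.le

lemma ud_ev (E : Set ℝ) {D : ℝ} (hD : (ud E).toReal < D) :
    ∀ᶠ X : ℝ in atTop, volume (E ∩ Icc 0 X) ≤ ENNReal.ofReal (D * X) := by
  have hD0 : 0 < D := lt_of_le_of_lt ENNReal.toReal_nonneg hD
  have h1 : ud E < ENNReal.ofReal D := (ENNReal.lt_ofReal_iff_toReal_lt (ud_top E)).2 hD
  have h2 := eventually_lt_of_limsup_lt h1 (by isBoundedDefault)
  filter_upwards [h2, eventually_gt_atTop 0] with X h3 hX
  rw [ENNReal.ofReal_mul hD0.le]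
  exact (ENNReal.div_le_iff_le_mul (Or.inl (ENNReal.ofReal_pos.2 hX).ne')
    (Or.inl ENNReal.ofReal_ne_top)).1 h3.le

/-- a short interval on which a function with values in `[0, 1]` does not grow much -/
lemma pigeon {u : ℝ → ℝ} (h0 : ∀ x, 0 ≤ u x) (h1 : ∀ x, u x ≤ 1) {e' e η : ℝ} (hlt : e' < e)
    (hη : 0 < η) : ∃ a b : ℝ, e' ≤ a ∧ a < b ∧ b ≤ e ∧ u b ≤ u a + η := by
  obtain ⟨n, hn⟩ := exists_nat_gt (1 / η)
  have hn0 : (0 : ℝ) < n := lt_trans (by positivity) hn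
  have hn1 : 1 < n * η := by rwa [div_lt_iff₀ hη] at hn
  by_contra hcon
  push Not at hcon
  have key : ∀ k : ℕ, k ≤ n → u e' + k * η ≤ u (e' + k * ((e - e') / n)) := by
    intro k
    induction k with
    | zero => intro _; simp
    | succ k ih =>
      intro hk
      have h2 := ih (by omega)
      have hd : 0 < (e - e') / n := div_pos (by linarith) hn0
      have hk' : ((k : ℝ) + 1) ≤ n := by exact_mod_cast hk
      have h3 := hcon (e' + k * ((e - e') / n)) (e' + (k + 1) * ((e - e') / n))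
        (by have : (0 : ℝ) ≤ k * ((e - e') / n) := by positivity
            linarith) (by linarith) (by
          have h4 : ((k : ℝ) + 1) * ((e - e') / n) ≤ n * ((e - e') / n) := by gcongr
          have h5 : (n : ℝ) * ((e - e') / n) = e - e' := by field_simp
          linarith)
      push_cast
      linarith
  have h2 := key n le_rfl
  have h3 := h0 e'
  have h4 := h1 (e' + n * ((e - e') / n))
  linarith

lemma sh_bounded {K : Set ℂ} (hK : IsCompact K) (hKs : K ⊆ {z | 1 / 2 < z.re ∧ z.re < 1})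
    {f : ℂ → ℂ} {Cf : ℝ} (hf : ∀ z ∈ K, ‖f z‖ ≤ Cf) (t : ℝ) :
    ∃ d : ℝ, 0 ≤ d ∧ ∀ z ∈ K, ‖sh t z - f z‖ ≤ d := by
  obtain ⟨C, hC0, hC⟩ := sh_bdd hK hKs (f := fun _ => 0) continuousOn_const t
  refine ⟨max 0 (C + Cf), le_max_left _ _, fun z hz => (le_max_right _ _).trans' ?_⟩
  have h1 := hC z hz
  rw [sub_zero] at h1
  exact (norm_sub_le _ _).trans (add_le_add h1 (hf z hz))

/-- zeros and their reflections -/
lemma refl_count {A B : ℝ} (hA : 1 ≤ A) (P : ℝ → Prop) :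
    2 * ({s : ℂ | s ∈ zset riemannZeta A B ∧ 1 / 2 ≤ s.re ∧ P s.im}.ncard : ℝ) ≤
      ∑ s ∈ Zf riemannZeta A B, (1 + ind (s.re = 1 / 2)) * ind (P s.im) := by
  classical
  have e1 : ({s : ℂ | s ∈ zset riemannZeta A B ∧ 1 / 2 ≤ s.re ∧ P s.im}.ncard : ℝ) =
      ∑ s ∈ Zf riemannZeta A B, ind (1 / 2 ≤ s.re ∧ P s.im) := by
    have h : {s : ℂ | s ∈ zset riemannZeta A B ∧ 1 / 2 ≤ s.re ∧ P s.im} =
        (((Zf riemannZeta A B).filter (fun s => 1 / 2 ≤ s.re ∧ P s.im) : Finset ℂ) : Set ℂ) := by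
      ext s
      rw [Finset.mem_coe, Finset.mem_filter, mem_Zf good_zeta hA]
      rfl
    rw [h, Set.ncard_coe_finset, Finset.card_filter]
    unfold ind
    push_cast
    refine Finset.sum_congr rfl fun s _ => ?_
    congr
  have e2 : ∑ s ∈ Zf riemannZeta A B, ind (1 / 2 ≤ s.re ∧ P s.im) =
      ∑ s ∈ Zf riemannZeta A B, ind (s.re ≤ 1 / 2 ∧ P s.im) := by
    refine Finset.sum_nbij' (fun s => 1 - conj s) (fun s => 1 - conj s) ?_ ?_ ?_ ?_ ?_
    · intro s hs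
      rw [mem_Zf good_zeta hA] at hs ⊢
      exact zset_refl good_zeta hA hs
    · intro s hs
      rw [mem_Zf good_zeta hA] at hs ⊢
      exact zset_refl good_zeta hA hs
    · intro s _
      simp
    · intro s _
      simp
    · intro s _
      congr 1
      have h1 : (1 - conj s).im = s.im := by simp
      have h2 : (1 - conj s).re = 1 - s.re := by simp
      rw [h1, h2]
      apply propext
      constructor
      · rintro ⟨a, b⟩; exact ⟨by linarith, b⟩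
      · rintro ⟨a, b⟩; exact ⟨by linarith, b⟩
  have e3 : ∑ s ∈ Zf riemannZeta A B, (1 + ind (s.re = 1 / 2)) * ind (P s.im) =
      ∑ s ∈ Zf riemannZeta A B, ind (1 / 2 ≤ s.re ∧ P s.im) +
      ∑ s ∈ Zf riemannZeta A B, ind (s.re ≤ 1 / 2 ∧ P s.im) := by
    rw [← Finset.sum_add_distrib]
    refine Finset.sum_congr rfl fun s _ => ?_
    by_cases hP : P s.im
    · rw [ind_true hP, mul_one]
      rcases lt_trichotomy s.re (1 / 2) with h | h | h
      · rw [ind_false (ne_of_lt h), ind_false (P := 1 / 2 ≤ s.re ∧ P s.im)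
          (fun hh => absurd hh.1 (not_le.2 h)), ind_true ⟨h.le, hP⟩]
        ring
      · rw [ind_true h, ind_true ⟨h.ge, hP⟩, ind_true ⟨h.le, hP⟩]
      · rw [ind_false (ne_of_gt h), ind_false (P := s.re ≤ 1 / 2 ∧ P s.im)
          (fun hh => absurd hh.1 (not_le.2 h)), ind_true ⟨h.le, hP⟩]
    · rw [ind_false hP, ind_false (P := 1 / 2 ≤ s.re ∧ P s.im) (fun hh => hP hh.2),
        ind_false (P := s.re ≤ 1 / 2 ∧ P s.im) (fun hh => hP hh.2)]
      ring
  rw [e3, ← e2, e1]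
  linarith

lemma NU_ind (A B : ℝ) (P : ℝ → Prop) : NU riemannZeta A B P =
    ∑ s ∈ Zf riemannZeta A B, (mult riemannZeta s : ℝ) * ind (P s.im) := by
  classical
  unfold NU
  rw [Finset.sum_filter]
  refine Finset.sum_congr rfl fun s _ => ?_
  by_cases h : P s.im
  · rw [if_pos h, ind_true h, mul_one]
  · rw [if_neg h, ind_false h, mul_zero]

lemma inc_le {A B : ℝ} (hA : 1 ≤ A) (b : Bool) (Q : ℝ → Prop) :
    ∑ s ∈ Zf riemannZeta A B, ind (s.re = 1 / 2 ∧ sgn b s.im ∧ Q s.im) ≤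
      ({t : ℝ | (A < t ∧ t ≤ B ∧ SG.Z t = 0 ∧ sgn b t) ∧ Q t}.ncard : ℝ) := by
  classical
  have e1 : ∑ s ∈ Zf riemannZeta A B, ind (s.re = 1 / 2 ∧ sgn b s.im ∧ Q s.im) =
      (((Zf riemannZeta A B).filter (fun s => s.re = 1 / 2 ∧ sgn b s.im ∧ Q s.im)).card : ℝ) := by
    unfold ind
    rw [Finset.card_filter]
    push_cast
    refine Finset.sum_congr rfl fun s _ => ?_
    congr
  have hinj : Set.InjOn (fun s : ℂ => s.im) (((Zf riemannZeta A B).filter
      (fun s => s.re = 1 / 2 ∧ sgn b s.im ∧ Q s.im) : Finset ℂ) : Set ℂ) := by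
    intro s hs s' hs' h
    rw [Finset.mem_coe, Finset.mem_filter] at hs hs'
    exact Complex.ext (hs.2.1.trans hs'.2.1.symm) h
  have hfin : {t : ℝ | (A < t ∧ t ≤ B ∧ SG.Z t = 0 ∧ sgn b t) ∧ Q t}.Finite :=
    (SG.RZ_finite A B (by linarith)).subset fun t ht => ⟨ht.1.1, ht.1.2.1, ht.1.2.2.1⟩
  rw [e1, ← Set.ncard_coe_finset, ← Set.InjOn.ncard_image hinj]
  have hle := Set.ncard_le_ncard (s := (fun s : ℂ => s.im) '' (((Zf riemannZeta A B).filter
    (fun s => s.re = 1 / 2 ∧ sgn b s.im ∧ Q s.im) : Finset ℂ) : Set ℂ))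
    (t := {t : ℝ | (A < t ∧ t ≤ B ∧ SG.Z t = 0 ∧ sgn b t) ∧ Q t}) ?_ hfin
  · exact_mod_cast hle
  · rintro t ⟨s, hs, rfl⟩
    rw [Finset.mem_coe, Finset.mem_filter] at hs
    obtain ⟨g1, g2, g3, -⟩ := zset_half hA hs.1 hs.2.1
    exact ⟨⟨g1, g2, g3, hs.2.2.1⟩, hs.2.2.2⟩

/-- **zeros with a sign in sets of universality** -/
theorem signed {K : Set ℂ} (hK : IsCompact K) (hKs : K ⊆ {z | 1 / 2 < z.re ∧ z.re < 1})
    (f : ℂ → ℂ) {ε' ε : ℝ} (h0 : 0 ≤ ε') (hlt : ε' < ε) {η : ℝ} (hη : 0 < η) (b : Bool) :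
    ∃ T0 : ℝ, 10 ≤ T0 ∧ ∀ T : ℝ, T0 ≤ T →
      ((2 - cc 1) * (ud (SS ε' K f)).toReal - η) * (NN riemannZeta T (2 * T) : ℝ) ≤
        2 * ({t : ℝ | (T < t ∧ t ≤ 2 * T ∧ SG.Z t = 0 ∧ sgn b t) ∧ t ∈ SS ε K f}.ncard : ℝ) := by
  have hcc1 := cc_gt
  have hcc2 := cc_lt
  norm_num at hcc2
  by_cases hne : (SS ε' K f).Nonempty
  swap
  · rw [Set.not_nonempty_iff_eq_empty] at hne
    refine ⟨10, le_rfl, fun T hT => ?_⟩
    have e : (ud (SS ε' K f)).toReal = 0 := by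
      rw [hne]
      unfold ud
      simp
    rw [e, mul_zero, zero_sub]
    have hN : (0 : ℝ) ≤ NN riemannZeta T (2 * T) := Nat.cast_nonneg _
    have h1 : -η * (NN riemannZeta T (2 * T) : ℝ) ≤ 0 :=
      mul_nonpos_of_nonpos_of_nonneg (by linarith) hN
    refine h1.trans (by positivity)
  obtain ⟨t0, ht0⟩ := hne
  obtain ⟨Cf, hCf0, hCf⟩ := bounded_of_mem hK hKs ht0
  have hbd := sh_bounded hK hKs hCf
  have hmono : ∀ {x y : ℝ}, x ≤ y → SS x K f ⊆ SS y K f := by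
    rintro x y hxy t ⟨δ, hδ, h⟩
    exact ⟨δ, by linarith, h⟩
  obtain ⟨η1, hη1⟩ : ∃ η1, η1 = η / 12 := ⟨_, rfl⟩
  have hη10 : 0 < η1 := by rw [hη1]; positivity
  obtain ⟨a, c, ha, hac, hc, huc⟩ := pigeon (u := fun e => (ud (SS e K f)).toReal)
    (fun _ => ENNReal.toReal_nonneg) (fun _ => ud_le' _) hlt hη10
  obtain ⟨c1, hc1⟩ : ∃ c1, c1 = a + (c - a) / 3 := ⟨_, rfl⟩
  obtain ⟨c2, hc2⟩ : ∃ c2, c2 = a + 2 * (c - a) / 3 := ⟨_, rfl⟩
  have l1 : a < c1 := by rw [hc1]; linarith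
  have l2 : c1 < c2 := by rw [hc1, hc2]; linarith
  have l3 : c2 < c := by rw [hc2]; linarith
  obtain ⟨u, hu⟩ : ∃ u, u = (ud (SS a K f)).toReal := ⟨_, rfl⟩
  have hu0 : 0 ≤ u := by rw [hu]; exact ENNReal.toReal_nonneg
  have hu' : (ud (SS ε' K f)).toReal ≤ u := by rw [hu]; exact ud_mono (hmono ha)
  obtain ⟨T1, hT1, g1⟩ := core hK hKs f l1 (D := u - η1)
    (ud_freq _ (by rw [← hu]; linarith)) hη10
  obtain ⟨h, hh0, hh1, T2, hT2, g2⟩ := stab hK hKs f l2 hη10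
  obtain ⟨T3, hT3, g3⟩ := mass_upper hK hKs f (by linarith : (0 : ℝ) ≤ c2) l3 hbd
    (D := u + 2 * η1) (by positivity)
    (ud_ev _ (by rw [hu]; linarith)) hη10
  obtain ⟨T4, hT4, g4⟩ := NN_low good_zeta
  obtain ⟨T5, hT5⟩ := (Real.tendsto_log_atTop.eventually_ge_atTop
    (14 / (h * η1))).exists_forall_of_atTop
  refine ⟨max (max T1 T2) (max (max T3 T4) T5), (hT1.trans (le_max_left _ _)).trans
    (le_max_left _ _), fun T hT => ?_⟩
  have t1 : T1 ≤ T := ((le_max_left _ _).trans (le_max_left _ _)).trans hT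
  have t2 : T2 ≤ T := ((le_max_right _ _).trans (le_max_left _ _)).trans hT
  have t3 : T3 ≤ T := (((le_max_left _ _).trans (le_max_left _ _)).trans (le_max_right _ _)).trans hT
  have t4 : T4 ≤ T := (((le_max_right _ _).trans (le_max_left _ _)).trans (le_max_right _ _)).trans hT
  have t5 : T5 ≤ T := ((le_max_right _ _).trans (le_max_right _ _)).trans hT
  have hT10 : 10 ≤ T := hT1.trans t1
  have hA : 1 ≤ T := by linarith
  obtain ⟨-, k1⟩ := g1 T t1
  have k2 := g2 T t2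
  have k3 := g3 T t3
  have k4 := g4 T t4
  have k5 := hT5 T t5
  obtain ⟨N, hN⟩ : ∃ N : ℝ, N = (NN riemannZeta T (2 * T) : ℝ) := ⟨_, rfl⟩
  have hN0 : 0 ≤ N := by rw [hN]; exact Nat.cast_nonneg _
  rw [← hN] at k1 k2 k3 k4 ⊢
  have k6 := dyadic (P := fun t => t ∈ SS c1 K f) (Q := fun t => t ∈ SS c2 K f)
    (U := fun t => t ∈ SS c1 K f ∧ unst h c2 K f t) hh0
    (fun t t' ht hP hQ => ⟨hP, t', ht, hQ⟩) hA b
  have k7 : T / h + 1 ≤ η1 * N := by
    have e1 : 14 ≤ Real.log T * (h * η1) := by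
      rwa [div_le_iff₀ (by positivity)] at k5
    have e2 : T / h + 1 ≤ 2 * T / h := by
      have : 1 ≤ T / h := by
        rw [one_le_div hh0]
        linarith
      have e3 : 2 * T / h = T / h + T / h := by ring
      linarith
    refine e2.trans ?_
    rw [div_le_iff₀ hh0]
    have e4 : T * 14 ≤ T * (Real.log T * (h * η1)) := by gcongr
    have e5 : T * (Real.log T * (h * η1)) = (T * Real.log T) * (h * η1) := by ring
    have e6 : (T * Real.log T) * (h * η1) ≤ (7 * N) * (h * η1) := by gcongr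
    have e7 : (7 * N) * (h * η1) = 7 * (η1 * N * h) := by ring
    linarith
  have k8 := refl_count (B := 2 * T) hA (fun t => t ∈ SS c1 K f)
  have k9 := inc_le (B := 2 * T) hA b (fun t => t ∈ SS c2 K f)
  rw [NU_ind] at k2 k3
  have hsum : ∑ s ∈ Zf riemannZeta T (2 * T), FF (fun t => t ∈ SS c1 K f)
      (fun t => t ∈ SS c2 K f) (fun t => t ∈ SS c1 K f ∧ unst h c2 K f t) b s =
      ∑ s ∈ Zf riemannZeta T (2 * T), (1 + ind (s.re = 1 / 2)) * ind (s.im ∈ SS c1 K f) -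
      2 * ∑ s ∈ Zf riemannZeta T (2 * T), (mult riemannZeta s : ℝ) *
        ind (s.im ∈ SS c1 K f ∧ unst h c2 K f s.im) -
      ∑ s ∈ Zf riemannZeta T (2 * T), (mult riemannZeta s : ℝ) * ind (s.im ∈ SS c2 K f) -
      2 * ∑ s ∈ Zf riemannZeta T (2 * T), ind (s.re = 1 / 2 ∧ sgn b s.im ∧ s.im ∈ SS c2 K f) := by
    unfold FF
    rw [Finset.mul_sum, Finset.mul_sum, ← Finset.sum_sub_distrib, ← Finset.sum_sub_distrib,
      ← Finset.sum_sub_distrib]
    refine Finset.sum_congr rfl fun s _ => ?_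
    ring
  rw [hsum] at k6
  have k10 : ({t : ℝ | (T < t ∧ t ≤ 2 * T ∧ SG.Z t = 0 ∧ sgn b t) ∧ t ∈ SS c2 K f}.ncard : ℝ) ≤
      ({t : ℝ | (T < t ∧ t ≤ 2 * T ∧ SG.Z t = 0 ∧ sgn b t) ∧ t ∈ SS ε K f}.ncard : ℝ) := by
    have hfin : {t : ℝ | (T < t ∧ t ≤ 2 * T ∧ SG.Z t = 0 ∧ sgn b t) ∧ t ∈ SS ε K f}.Finite :=
      (SG.RZ_finite T (2 * T) (by linarith)).subset fun t ht => ⟨ht.1.1, ht.1.2.1, ht.1.2.2.1⟩
    have hsub : {t : ℝ | (T < t ∧ t ≤ 2 * T ∧ SG.Z t = 0 ∧ sgn b t) ∧ t ∈ SS c2 K f} ⊆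
        {t : ℝ | (T < t ∧ t ≤ 2 * T ∧ SG.Z t = 0 ∧ sgn b t) ∧ t ∈ SS ε K f} :=
      fun t ht => ⟨ht.1, hmono (by linarith) ht.2⟩
    exact_mod_cast Set.ncard_le_ncard hsub hfin
  have m1 : (2 - cc 1) * (ud (SS ε' K f)).toReal ≤ (2 - cc 1) * u :=
    mul_le_mul_of_nonneg_left hu' (by linarith)
  have m2 : ((2 - cc 1) * (ud (SS ε' K f)).toReal - η) * N ≤ ((2 - cc 1) * u - η) * N :=
    mul_le_mul_of_nonneg_right (by linarith) hN0
  refine m2.trans ?_
  have m3 : 2 * (((3 - cc 1) / 2 * (u - η1) - η1) * N) =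
      (3 - cc 1) * u * N - (5 - cc 1) * (η1 * N) := by ring
  have m4 : (5 - cc 1) * (η1 * N) ≤ 5 * (η1 * N) := by
    apply mul_le_mul_of_nonneg_right _ (by positivity)
    linarith
  have m5 : (u + 2 * η1 + η1) * N = u * N + 3 * (η1 * N) := by ring
  have m6 : ((2 - cc 1) * u - η) * N = (3 - cc 1) * u * N - u * N - 12 * (η1 * N) := by
    rw [hη1]; ring
  have m7 : 0 ≤ η1 * N := by positivity
  linarith

end Pool.Agent.R304.UE
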