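import Pool.Agent.R304.UE.Cell

/-! The number of zeros in sets of universality, from above. -/

open Complex Filter Topology Set MeasureTheory

namespace Pool.Agent.R304.UE

open ZU H370 H370.A2 H370.AS H295SI TH803TW TH803UC R304.UN R304.UG R304.UP R304.UQ

/-- the functional -/
noncomputable def ramp (K : Set ℂ) (f : ℂ → ℂ) (e₁ e₂ : ℝ) (g : ℂ → ℂ) : ℝ :=
  min 1 (max 0 ((e₂ - dK K f g) / (e₂ - e₁)))

lemma ramp_nonneg (K : Set ℂ) (f : ℂ → ℂ) (e₁ e₂ : ℝ) (g : ℂ → ℂ) : 0 ≤ ramp K f e₁ e₂ g :=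
  le_min zero_le_one (le_max_left _ _)

lemma ramp_le (K : Set ℂ) (f : ℂ → ℂ) (e₁ e₂ : ℝ) (g : ℂ → ℂ) : ramp K f e₁ e₂ g ≤ 1 :=
  min_le_left _ _

theorem ramp_fnl {K : Set ℂ} (f : ℂ → ℂ) {e₁ e₂ : ℝ} (h12 : e₁ < e₂) :
    Fnl K (ramp K f e₁ e₂) 1 := by
  have h0 : 0 < e₂ - e₁ := by linarith
  refine ⟨fun g => ?_, fun e he => ⟨e * (e₂ - e₁), by positivity, fun g h hgh => ?_⟩⟩
  · rw [abs_of_nonneg (ramp_nonneg _ _ _ _ _)]
    exact ramp_le _ _ _ _ _
  · have h1 := dK_le (f := f) (show 0 ≤ e * (e₂ - e₁) by positivity) hgh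
    have h2 := dK_le (f := f) (g := h) (h := g) (show 0 ≤ e * (e₂ - e₁) by positivity)
      (fun z hz => by rw [norm_sub_rev]; exact hgh z hz)
    unfold ramp
    have h3 : |(e₂ - dK K f g) / (e₂ - e₁) - (e₂ - dK K f h) / (e₂ - e₁)| ≤ e := by
      rw [← sub_div, abs_div, abs_of_pos h0, div_le_iff₀ h0]
      rw [abs_le]
      constructor <;> linarith
    have h4 := abs_max_sub_max_le_abs ((e₂ - dK K f g) / (e₂ - e₁))
      ((e₂ - dK K f h) / (e₂ - e₁)) 0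
    rw [max_comm _ (0 : ℝ), max_comm _ (0 : ℝ)] at h4
    have h5 := abs_min_sub_min_le_max (1 : ℝ) (max 0 ((e₂ - dK K f g) / (e₂ - e₁))) 1
      (max 0 ((e₂ - dK K f h) / (e₂ - e₁)))
    refine h5.trans (max_le ?_ (h4.trans h3))
    simpa using he.le

/-- where the functional is positive -/
lemma ramp_pos {K : Set ℂ} {f g : ℂ → ℂ} {e₁ e₂ : ℝ} (h12 : e₁ < e₂)
    (hne : ∃ d : ℝ, 0 ≤ d ∧ ∀ z ∈ K, ‖g z - f z‖ ≤ d) (h : 0 < ramp K f e₁ e₂ g) :
    ∃ δ < e₂, ∀ z ∈ K, ‖g z - f z‖ ≤ δ := by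
  unfold ramp at h
  have h1 := (lt_min_iff.1 h).2
  rcases lt_max_iff.1 h1 with h1 | h1
  · exact absurd h1 (lt_irrefl _)
  · have h2 : dK K f g < e₂ := by
      rw [div_pos_iff_of_pos_right (by linarith)] at h1
      linarith
    obtain ⟨d, ⟨-, hd⟩, hdε⟩ := exists_lt_of_csInf_lt hne h2
    exact ⟨d, hdε, hd⟩

/-- where the functional is one -/
lemma ramp_one {K : Set ℂ} {f g : ℂ → ℂ} {e₁ e₂ : ℝ} (h0 : 0 ≤ e₁) (h12 : e₁ < e₂)
    (h : ∃ δ < e₁, ∀ z ∈ K, ‖g z - f z‖ ≤ δ) : ramp K f e₁ e₂ g = 1 := by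
  obtain ⟨δ, hδ, h1⟩ := h
  have h2 : dK K f g ≤ e₁ := by
    refine csInf_le ⟨0, fun _ h => h.1⟩ ⟨h0, fun z hz => (h1 z hz).trans hδ.le⟩
  unfold ramp
  have h3 : 1 ≤ (e₂ - dK K f g) / (e₂ - e₁) := by
    rw [le_div_iff₀ (by linarith)]
    linarith
  rw [min_eq_left (le_max_of_le_right h3)]

/-- **the number of zeros in `S_ε`, from above** -/
theorem mass_upper {K : Set ℂ} (hK : IsCompact K) (hKs : K ⊆ {z | 1 / 2 < z.re ∧ z.re < 1})
    (f : ℂ → ℂ) {e₁ e₂ : ℝ} (h0 : 0 ≤ e₁) (h12 : e₁ < e₂)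
    (hne : ∀ t : ℝ, ∃ d : ℝ, 0 ≤ d ∧ ∀ z ∈ K, ‖sh t z - f z‖ ≤ d) {D : ℝ} (hD0 : 0 ≤ D)
    (hD : ∀ᶠ X : ℝ in atTop, volume (SS e₂ K f ∩ Icc 0 X) ≤ ENNReal.ofReal (D * X))
    {η : ℝ} (hη : 0 < η) :
    ∃ T0 : ℝ, 10 ≤ T0 ∧ ∀ T : ℝ, T0 ≤ T →
      NU riemannZeta T (2 * T) (fun t => t ∈ SS e₁ K f) ≤
        (D + η) * (NN riemannZeta T (2 * T) : ℝ) := by
  classical
  have hΦ := ramp_fnl (K := K) f h12
  obtain ⟨m, hm⟩ := mean_exists hK hKs hΦ
  have hcont := sh_cont hK hKs hΦ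
  have hmD : m ≤ D := by
    refine le_of_tendsto hm ?_
    filter_upwards [hD, eventually_gt_atTop 0] with X hX hX0
    rw [div_le_iff₀ hX0, intervalIntegral.integral_of_le hX0.le, ← integral_Icc_eq_integral_Ioc]
    obtain ⟨E, hE⟩ : ∃ E : Set ℝ, E = {t : ℝ | 0 < ramp K f e₁ e₂ (sh t)} := ⟨_, rfl⟩
    have hEo : IsOpen E := by
      rw [hE]
      exact isOpen_lt continuous_const hcont
    have hEs : E ⊆ SS e₂ K f := by
      intro t ht
      rw [hE] at ht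
      exact ramp_pos h12 (hne t) ht
    have hfin : volume (E ∩ Icc 0 X) ≠ ⊤ := by
      refine ne_top_of_le_ne_top ?_ (measure_mono inter_subset_right)
      rw [Real.volume_Icc]; exact ENNReal.ofReal_ne_top
    have h1 : ∫ t in Icc 0 X, ramp K f e₁ e₂ (sh t) ≤ ∫ t in Icc 0 X, E.indicator (fun _ => (1 : ℝ)) t := by
      refine setIntegral_mono ?_ ?_ fun t => ?_
      · exact hcont.continuousOn.integrableOn_compact isCompact_Icc
      · rw [IntegrableOn, integrable_indicator_iff hEo.measurableSet]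
        refine integrableOn_const ?_
        rw [Measure.restrict_apply hEo.measurableSet]
        exact hfin
      · by_cases h : t ∈ E
        · show _ ≤ E.indicator (fun _ => (1 : ℝ)) t
          rw [indicator_of_mem h]
          exact ramp_le _ _ _ _ _
        · show _ ≤ E.indicator (fun _ => (1 : ℝ)) t
          rw [indicator_of_notMem h]
          rw [hE] at h
          exact not_lt.1 h
    refine h1.trans ?_
    rw [integral_indicator hEo.measurableSet, Measure.restrict_restrict hEo.measurableSet,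
      setIntegral_const, smul_eq_mul, mul_one, Measure.real]
    have h2 := (measure_mono (inter_subset_inter_left (Icc 0 X) hEs)).trans hX
    have h3 := ENNReal.toReal_mono ENNReal.ofReal_ne_top h2
    rwa [ENNReal.toReal_ofReal (by positivity)] at h3
  obtain ⟨T0, hT0, h⟩ := ord_mean hK hKs hΦ hm hη
  refine ⟨T0, hT0, fun T hT => ?_⟩
  have h1 := (abs_le.1 (h T hT)).2
  have hN : (0 : ℝ) ≤ NN riemannZeta T (2 * T) := Nat.cast_nonneg _
  have h2 : NU riemannZeta T (2 * T) (fun t => t ∈ SS e₁ K f) ≤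
      MW riemannZeta T (2 * T) (fun t => ramp K f e₁ e₂ (sh t)) := by
    unfold NU MW
    rw [Finset.sum_filter]
    refine Finset.sum_le_sum fun s _ => ?_
    have hp : (0 : ℝ) ≤ mult riemannZeta s := Nat.cast_nonneg _
    by_cases hs : s.im ∈ SS e₁ K f
    · rw [if_pos hs]
      have h3 : ramp K f e₁ e₂ (sh s.im) = 1 := ramp_one h0 h12 hs
      show _ ≤ (mult riemannZeta s : ℝ) * ramp K f e₁ e₂ (sh s.im)
      rw [h3, mul_one]
    · rw [if_neg hs]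
      exact mul_nonneg hp (ramp_nonneg _ _ _ _ _)
  have h3 : m * (NN riemannZeta T (2 * T) : ℝ) ≤ D * (NN riemannZeta T (2 * T) : ℝ) :=
    mul_le_mul_of_nonneg_right hmD hN
  have e : (D + η) * (NN riemannZeta T (2 * T) : ℝ) =
    D * (NN riemannZeta T (2 * T) : ℝ) + η * (NN riemannZeta T (2 * T) : ℝ) := by ring
  rw [e]
  linarith

end Pool.Agent.R304.UE
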